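import Pool.Agent.H44.EP.Core
import Pool.Agent.H95.NP.GeoD
import Pool.Agent.H95.NU.Upper

/-!
# Noncrossing alternating paths on bicoloured points on a circle: `ℓ(n) = (4 - 2 √2) n + o(n)`
-/

namespace Pool.Agent.Results.MP_f5d6d4_co.Asymptotics

open Pool.Agent.H95.NP Filter Topology

/-- `p 0, p 1, …, p (k-1)` are the vertices, in this order, of a noncrossing alternating path with `k`
vertices on the set of red points `R` and the set of blue points `B`: the vertices are distinct points
of `R ∪ B`, consecutive vertices have opposite colours, and two different segments have no common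
point, except that consecutive segments share their common endpoint. -/
structure IsPath (R B : Finset ℂ) (k : ℕ) (p : ℕ → ℂ) : Prop where
  mem : ∀ i, i < k → p i ∈ R ∪ B
  inj : ∀ i j, i < k → j < k → p i = p j → i = j
  alt : ∀ i, i + 1 < k → (p i ∈ R ∧ p (i + 1) ∈ B) ∨ (p i ∈ B ∧ p (i + 1) ∈ R)
  noncross : ∀ i j, i < j → j + 1 < k → ∀ z, z ∈ segment ℝ (p i) (p (i + 1)) →
    z ∈ segment ℝ (p j) (p (j + 1)) → j = i + 1 ∧ z = p j

/-- Every configuration of `n` red points `R` and `n` blue points `B` on a circle contains a noncrossing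
alternating path with `k` vertices. -/
def Always (n k : ℕ) : Prop :=
  ∀ R B : Finset ℂ, R.card = n → B.card = n → Disjoint R B →
    (∃ (c : ℂ) (ρ : ℝ), ∀ z ∈ R ∪ B, ‖z - c‖ = ρ) → ∃ p : ℕ → ℂ, IsPath R B k p

/-- `ℓ(n)`: the largest `k` such that every configuration of `n` red and `n` blue points on a circle
contains a noncrossing alternating path with `k` vertices. -/
noncomputable def ell (n : ℕ) : ℕ := sSup {k | Always n k}

theorem IsPath.mono {R B : Finset ℂ} {k l : ℕ} {p : ℕ → ℂ} (h : IsPath R B k p) (hl : l ≤ k) :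
    IsPath R B l p where
  mem i hi := h.mem i (by omega)
  inj i j hi hj hij := h.inj i j (by omega) (by omega) hij
  alt i hi := h.alt i (by omega)
  noncross i j hij hj := h.noncross i j hij (by omega)

/-- Every set of `n` red and `n` blue points on a circle has a noncrossing alternating path with
(exactly) `⌈(4 - 2 √2) n⌉` vertices. -/
theorem always_lower (n : ℕ) (hn : 1 ≤ n) : Always n ⌈(4 - 2 * √2) * (n : ℝ)⌉₊ := by
  intro R B hR hB hRB hcr
  obtain ⟨c, ρ, hcirc⟩ := hcr
  have hcard : (R ∪ B).card = 2 * n := by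
    rw [Finset.card_union_of_disjoint hRB]; omega
  have hρ : 0 < ρ := by
    have h0 : (R ∪ B).card ≥ 2 := by omega
    obtain ⟨a, ha, b, hb, hab⟩ := Finset.one_lt_card.mp (by omega : 1 < (R ∪ B).card)
    rcases lt_or_ge 0 ρ with h | h
    · exact h
    · exfalso
      have h1 := hcirc a ha
      have h2 := hcirc b hb
      have h3 : ‖a - c‖ = 0 := le_antisymm (h1 ▸ h) (norm_nonneg _)
      have h4 : ‖b - c‖ = 0 := le_antisymm (h2 ▸ h) (norm_nonneg _)
      have h5 : a = c := sub_eq_zero.mp (norm_eq_zero.mp h3)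
      have h6 : b = c := sub_eq_zero.mp (norm_eq_zero.mp h4)
      exact hab (h5.trans h6.symm)
  obtain ⟨t, htm, htp, htS, htI⟩ := exists_param (2 * n) (by omega) c ρ (R ∪ B) hcard hcirc
  classical
  set w : ℤ → Bool := fun k => decide (circ c ρ (t k) ∈ R) with hwdef
  have hw : ∀ x, w (x + (2 * n : ℕ)) = w x := by
    intro x
    simp only [hwdef, htp, circ_period]
  have hinj : Set.InjOn (fun k : ℕ => circ c ρ (t (k : ℤ))) (Finset.range (2 * n)) := by
    apply Finset.card_image_iff.mp
    rw [htI, hcard, Finset.card_range]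
  have hbal : ((Finset.range (2 * n)).filter fun x : ℕ => w (x : ℤ) = true).card = n := by
    have h1 : ((Finset.range (2 * n)).filter fun x : ℕ => w (x : ℤ) = true).image
        (fun k : ℕ => circ c ρ (t (k : ℤ))) = R := by
      ext z
      simp only [Finset.mem_image, Finset.mem_filter, hwdef, decide_eq_true_eq]
      constructor
      · rintro ⟨k, ⟨_, h⟩, rfl⟩; exact h
      · intro hz
        have hz' : z ∈ R ∪ B := Finset.mem_union_left _ hz
        rw [← htI, Finset.mem_image] at hz'
        obtain ⟨k, hk, rfl⟩ := hz'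
        exact ⟨k, ⟨hk, hz⟩, rfl⟩
    have h2 := Finset.card_image_of_injOn (hinj.mono (by
      intro x hx
      simp only [Finset.coe_filter, Set.mem_ofPred_eq] at hx
      exact_mod_cast hx.1) :
      Set.InjOn (fun k : ℕ => circ c ρ (t (k : ℤ)))
        ((Finset.range (2 * n)).filter fun x : ℕ => w (x : ℤ) = true))
    rw [h1, hR] at h2
    exact h2.symm
  obtain ⟨m, hnest, hm⟩ := Pool.Agent.H44.EP.core_sharp n hn w hw hbal
  obtain ⟨v, hv1, hv2, hv3⟩ := path_of_nested (2 * n) c ρ hρ t htm
    (by intro k; exact htp k) w m hnest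
  have hB' : ∀ k, w k = false → circ c ρ (t k) ∈ B := by
    intro k hk
    simp only [hwdef, decide_eq_false_iff_not] at hk
    rcases Finset.mem_union.mp (htS k) with h | h
    · exact absurd h hk
    · exact h
  have hR' : ∀ k, w k = true → circ c ρ (t k) ∈ R := by
    intro k hk
    simpa only [hwdef, decide_eq_true_eq] using hk
  have hpath : IsPath R B (2 * m) (fun k => circ c ρ (t (v k))) := by
    refine ⟨fun i _ => htS _, hv2, ?_, hv3⟩
    intro i hi
    have h1 := hv1 i (by omega)
    have h2 := hv1 (i + 1) (by omega)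
    rcases Nat.mod_two_eq_zero_or_one i with h | h
    · left
      refine ⟨hR' _ (h1.mpr h), hB' _ ?_⟩
      rw [← Bool.not_eq_true, h2]; omega
    · right
      refine ⟨hB' _ ?_, hR' _ (h2.mpr (by omega))⟩
      rw [← Bool.not_eq_true, h1]; omega
  refine ⟨_, hpath.mono ?_⟩
  rw [Nat.ceil_le]
  push_cast
  linarith

theorem always_le (n : ℕ) (hn : 1 ≤ n) (k : ℕ) (h : Always n k) : k ≤ 2 * n := by
  classical
  obtain ⟨R, B, hR, hB, hRB, hc⟩ := Pool.Agent.H95.NU.exists_config n hn
  obtain ⟨p, hp⟩ := h R B hR hB hRB ⟨0, 1, hc⟩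
  have h1 : ((Finset.range k).image p).card ≤ (R ∪ B).card := by
    apply Finset.card_le_card
    intro z hz
    obtain ⟨i, hi, rfl⟩ := Finset.mem_image.mp hz
    exact hp.mem i (Finset.mem_range.mp hi)
  rw [Finset.card_image_of_injOn (by
    intro i hi j hj hij
    exact hp.inj i j (Finset.mem_range.mp hi) (Finset.mem_range.mp hj) hij), Finset.card_range,
    Finset.card_union_of_disjoint hRB] at h1
  omega

theorem isGreatest (n : ℕ) (hn : 1 ≤ n) : IsGreatest {k | Always n k} (ell n) := by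
  have hbdd : BddAbove {k | Always n k} := ⟨2 * n, fun k hk => always_le n hn k hk⟩
  exact ⟨Nat.sSup_mem ⟨_, always_lower n hn⟩ hbdd, fun k hk => le_csSup hbdd hk⟩

/-- **Main theorem.** `ell n` is the largest `k` such that every configuration of `n` red and `n` blue points on a
circle contains a noncrossing alternating path with `k` vertices; `ell n ≥ (4 - 2 √2) n` for all `n ≥ 1`, and
`ell n / n → 4 - 2 √2`. -/
theorem result : (∀ n : ℕ, 1 ≤ n → IsGreatest {k | Always n k} (ell n)) ∧
    (∀ n : ℕ, 1 ≤ n → (4 - 2 * √2) * (n : ℝ) ≤ (ell n : ℝ)) ∧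
    Tendsto (fun n : ℕ => (ell n : ℝ) / (n : ℝ)) atTop (𝓝 (4 - 2 * √2)) := by
  have lower : ∀ n : ℕ, 1 ≤ n → (4 - 2 * √2) * (n : ℝ) ≤ (ell n : ℝ) := by
    intro n hn
    have h1 := (isGreatest n hn).2 (always_lower n hn)
    have h2 : (4 - 2 * √2) * (n : ℝ) ≤ (⌈(4 - 2 * √2) * (n : ℝ)⌉₊ : ℝ) := Nat.le_ceil _
    exact h2.trans (by exact_mod_cast h1)
  refine ⟨isGreatest, lower, ?_⟩
  rw [Metric.tendsto_atTop]
  intro ε hε
  obtain ⟨n0, h0⟩ := Pool.Agent.H95.NU.upper (ε / 2) (by positivity)
  refine ⟨max n0 1, fun n hn => ?_⟩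
  have hn0 : n0 ≤ n := (le_max_left _ _).trans hn
  have hn1 : 1 ≤ n := (le_max_right _ _).trans hn
  have hnpos : (0 : ℝ) < n := by exact_mod_cast hn1
  have h1 := lower n hn1
  obtain ⟨R, B, hR, hB, hRB, hc, hp⟩ := h0 n hn0
  obtain ⟨p, hpp⟩ := (isGreatest n hn1).1 R B hR hB hRB ⟨0, 1, hc⟩
  have h2 := hp (ell n) p hpp.mem hpp.inj hpp.alt hpp.noncross
  rw [Real.dist_eq, abs_lt]
  have h3 : 4 - 2 * √2 ≤ (ell n : ℝ) / n := by rw [le_div_iff₀ hnpos]; exact h1
  have h4 : (ell n : ℝ) / n ≤ 4 - 2 * √2 + ε / 2 := by rw [div_le_iff₀ hnpos]; exact h2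
  constructor <;> linarith

end Pool.Agent.Results.MP_f5d6d4_co.Asymptotics
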